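import Pool.Agent.K1H69.HYC.Lop
import Pool.Agent.Helper635.LLL

/-! Project HYC (helper34): asymmetric local lemma for independent uniform labels. -/

set_option autoImplicit false
open Classical Finset

namespace Pool.Agent.K1H69.HYC

open Pool.Agent.K1H34.HYC
open Pool.Agent.Helper635.LLL (cnt ev mem_ev indep)

/-- product over a set covered by the sets `U x` -/
theorem prod_cover {E X : Type} (f : E → ℝ) (hf : ∀ e, 0 ≤ f e ∧ f e ≤ 1) (U : X → Finset E)
    (s : Finset X) : ∀ A : Finset E, A ⊆ s.biUnion U →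
      ∏ x ∈ s, ∏ e ∈ U x, f e ≤ ∏ e ∈ A, f e := by
  induction s using Finset.induction_on with
  | empty =>
    intro A hA
    have : A = ∅ := by simpa using hA
    subst this; simp
  | insert a s ha ih =>
    intro A hA
    rw [Finset.prod_insert ha, ← Finset.prod_filter_mul_prod_filter_not A (fun e => e ∈ U a)]
    refine mul_le_mul ?_ ?_ ?_ ?_
    · refine Finset.prod_le_prod_of_subset_of_le_one ?_ (fun e _ => (hf e).1) (fun e _ _ => (hf e).2)
      intro e he
      exact (mem_filter.1 he).2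
    · apply ih
      intro e he
      obtain ⟨h1, h2⟩ := mem_filter.1 he
      have h3 := hA h1
      rw [Finset.biUnion_insert, mem_union] at h3
      exact h3.resolve_left h2
    · exact Finset.prod_nonneg fun x _ => Finset.prod_nonneg fun e _ => (hf e).1
    · exact Finset.prod_nonneg fun e _ => (hf e).1

theorem one_sub_sum_le {E : Type} (a : E → ℝ) (ha : ∀ e, 0 ≤ a e ∧ a e ≤ 1) (s : Finset E) :
    1 - ∑ e ∈ s, a e ≤ ∏ e ∈ s, (1 - a e) := by
  induction s using Finset.induction_on with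
  | empty => simp
  | insert b s hb ih =>
    rw [Finset.prod_insert hb, Finset.sum_insert hb]
    have h0 : 0 ≤ ∑ e ∈ s, a e := Finset.sum_nonneg fun e _ => (ha e).1
    have h1 := mul_le_mul_of_nonneg_left ih (by linarith [(ha b).2] : (0:ℝ) ≤ 1 - a b)
    have h2 : 0 ≤ a b * ∑ e ∈ s, a e := mul_nonneg (ha b).1 h0
    nlinarith

/-- the number of maps with given values on `S` -/
theorem card_fix {X C : Type} [Fintype X] [Fintype C] (S : Finset X) (ω0 : X → C) :
    cnt (fun ω : X → C => ∀ x ∈ S, ω x = ω0 x) * Fintype.card C ^ S.card =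
      Fintype.card C ^ Fintype.card X := by
  have h : ev (fun ω : X → C => ∀ x ∈ S, ω x = ω0 x) =
      Fintype.piFinset (fun x => if x ∈ S then {ω0 x} else univ) := by
    ext ω
    rw [mem_ev, Fintype.mem_piFinset]
    constructor
    · intro h x
      by_cases hx : x ∈ S
      · rw [if_pos hx, mem_singleton]; exact h x hx
      · rw [if_neg hx]; exact mem_univ _
    · intro h x hx
      have := h x
      rw [if_pos hx, mem_singleton] at this
      exact this
  rw [cnt, h, Fintype.card_piFinset]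
  have h1 : ∏ x : X, (if x ∈ S then ({ω0 x} : Finset C) else univ).card =
      ∏ x : X, (if x ∈ S then 1 else Fintype.card C) := by
    refine Finset.prod_congr rfl fun x _ => ?_
    split_ifs <;> simp
  have h2 : Fintype.card C ^ S.card = ∏ x : X, (if x ∈ S then Fintype.card C else 1) := by
    rw [Finset.prod_ite_mem, univ_inter, Finset.prod_const]
  rw [h1, h2, ← Finset.prod_mul_distrib]
  exact Finset.prod_eq_pow_card (fun x _ => by split_ifs <;> simp)

theorem card_part {X C : Type} [Fintype X] [Fintype C] (τ : Finset (X × C)) :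
    cnt (fun ω : X → C => ∀ z ∈ τ, ω z.1 = z.2) * Fintype.card C ^ τ.card ≤
      Fintype.card C ^ Fintype.card X := by
  by_cases hne : ∃ ω0 : X → C, ∀ z ∈ τ, ω0 z.1 = z.2
  · obtain ⟨ω0, h0⟩ := hne
    have h1 : τ.card = (τ.image Prod.fst).card := by
      rw [Finset.card_image_of_injOn]
      intro z hz z' hz' h
      have e1 := h0 z hz
      have e2 := h0 z' hz'
      have h' : z.1 = z'.1 := h
      rw [h'] at e1
      exact Prod.ext h (e1.symm.trans e2)
    have h2 : cnt (fun ω : X → C => ∀ z ∈ τ, ω z.1 = z.2) =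
        cnt (fun ω : X → C => ∀ x ∈ τ.image Prod.fst, ω x = ω0 x) := by
      unfold cnt
      congr 1
      ext ω
      rw [mem_ev, mem_ev]
      constructor
      · intro h x hx
        obtain ⟨z, hz, rfl⟩ := mem_image.1 hx
        rw [h z hz, h0 z hz]
      · intro h z hz
        rw [h z.1 (mem_image.2 ⟨z, hz, rfl⟩), h0 z hz]
    rw [h1, h2, card_fix]
  · have : ev (fun ω : X → C => ∀ z ∈ τ, ω z.1 = z.2) = ∅ := by
      apply Finset.eq_empty_of_forall_notMem
      intro ω h
      rw [mem_ev] at h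
      exact hne ⟨ω, h⟩
    rw [cnt, this]; simp

/-- the local lemma for events which depend on few coordinates -/
theorem core {X E : Type} [Fintype X] [Fintype E] (N : ℕ) (hN : 1 ≤ N) (w : ℝ)
    (hw1 : w ≤ 1 / 2) (B : E → (X → Fin N) → Prop) (dep : E → Finset X) (x : E → ℝ)
    (hx0 : ∀ e, 0 ≤ x e) (hx1 : ∀ e, x e < 1)
    (hdep : ∀ e, Pool.Agent.Helper635.LLL.DependsOn (B e) (dep e))
    (hcnt : ∀ e, (cnt (B e) : ℝ) ≤ x e * (1 - w) ^ (dep e).card * (N : ℝ) ^ Fintype.card X)
    (hsum : ∀ v : X, ∑ e ∈ univ.filter (fun e : E => v ∈ dep e), x e ≤ w) :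
    ∃ ω : X → Fin N, ∀ e, ¬ B e ω := by
  have hNpos : (0 : ℝ) < N := by exact_mod_cast hN
  have : Nonempty (Fin N) := ⟨⟨0, hN⟩⟩
  have h1w : 0 < 1 - w := by linarith
  obtain ⟨ω, _, hω⟩ := t_LOP (X → Fin N) E univ B (fun e e' => ¬ Disjoint (dep e) (dep e')) x
    univ_nonempty (fun e => ⟨hx0 e, hx1 e⟩) (by
      intro e T' hT'
      have hind := indep (B e) (fun ω => ∀ e' ∈ T', ¬ B e' ω) (dep e) (hdep e) (by
        intro ω ω' h h1 e' he' hb
        apply h1 e' he'
        refine hdep e' ω' ω (fun v hv => (h v fun hv' => ?_).symm) hb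
        have hd := hT' e' he'
        rw [not_not] at hd
        exact (Finset.disjoint_left.1 hd hv') hv)
      have hcard : (Fintype.card (X → Fin N) : ℝ) = (N : ℝ) ^ Fintype.card X := by
        rw [Fintype.card_fun, Fintype.card_fin]; push_cast; rfl
      have hM : (0 : ℝ) < (N : ℝ) ^ Fintype.card X := by positivity
      have hind' : (cnt (fun ω => B e ω ∧ ∀ e' ∈ T', ¬ B e' ω) : ℝ) * (N : ℝ) ^ Fintype.card X =
          cnt (B e) * cnt (fun ω => ∀ e' ∈ T', ¬ B e' ω) := by
        rw [← hcard]; exact_mod_cast hind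
      have hprod : (1 - w) ^ (dep e).card ≤
          ∏ e' ∈ univ.filter (fun e' => ¬ Disjoint (dep e) (dep e') ∧ e' ≠ e), (1 - x e') := by
        have h1 := prod_cover (fun e' => 1 - x e')
          (fun e' => ⟨by linarith [hx1 e'], by linarith [hx0 e']⟩)
          (fun v => univ.filter (fun e' : E => v ∈ dep e')) (dep e)
          (univ.filter (fun e' => ¬ Disjoint (dep e) (dep e') ∧ e' ≠ e)) (by
            intro e' he'
            have h2 := (mem_filter.1 he').2.1
            rw [Finset.not_disjoint_iff] at h2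
            obtain ⟨v, hv, hv'⟩ := h2
            exact mem_biUnion.2 ⟨v, hv, mem_filter.2 ⟨mem_univ _, hv'⟩⟩)
        refine le_trans ?_ h1
        rw [← Finset.prod_const]
        refine Finset.prod_le_prod (fun _ _ => h1w.le) fun v _ => ?_
        have h2 := one_sub_sum_le x (fun e' => ⟨hx0 e', (hx1 e').le⟩)
          (univ.filter (fun e' : E => v ∈ dep e'))
        linarith [hsum v]
      have h3 : (cnt (fun ω => B e ω ∧ ∀ e' ∈ T', ¬ B e' ω) : ℝ) =
          cnt (B e) * cnt (fun ω => ∀ e' ∈ T', ¬ B e' ω) / (N : ℝ) ^ Fintype.card X := by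
        rw [eq_div_iff hM.ne']; exact hind'
      have h4 : (0 : ℝ) ≤ cnt (fun ω : X → Fin N => ∀ e' ∈ T', ¬ B e' ω) := Nat.cast_nonneg _
      have h5 : (cnt (B e) : ℝ) ≤ x e *
          (∏ e' ∈ univ.filter (fun e' => ¬ Disjoint (dep e) (dep e') ∧ e' ≠ e), (1 - x e')) *
          (N : ℝ) ^ Fintype.card X := by
        refine (hcnt e).trans ?_
        refine mul_le_mul_of_nonneg_right ?_ hM.le
        exact mul_le_mul_of_nonneg_left hprod (hx0 e)
      have main : (cnt (fun ω => B e ω ∧ ∀ e' ∈ T', ¬ B e' ω) : ℝ) ≤ x e *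
          (∏ e' ∈ univ.filter (fun e' => ¬ Disjoint (dep e) (dep e') ∧ e' ≠ e), (1 - x e')) *
          cnt (fun ω => ∀ e' ∈ T', ¬ B e' ω) := by
        rw [h3, div_le_iff₀ hM]
        calc (cnt (B e) : ℝ) * cnt (fun ω => ∀ e' ∈ T', ¬ B e' ω)
            ≤ (x e * (∏ e' ∈ univ.filter (fun e' => ¬ Disjoint (dep e) (dep e') ∧ e' ≠ e),
              (1 - x e')) * (N : ℝ) ^ Fintype.card X) * cnt (fun ω => ∀ e' ∈ T', ¬ B e' ω) :=
              mul_le_mul_of_nonneg_right h5 h4
          _ = _ := by ring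
      unfold cnt ev at main
      convert main)
  exact ⟨ω, hω⟩

theorem t_GLLL : S_GLLL := by
  intro X J _ _ N w T F H ε hN hw0 hw1 hF hε hT hFc hsum
  have hNpos : (0 : ℝ) < N := by exact_mod_cast hN
  have : Nonempty (Fin N) := ⟨⟨0, hN⟩⟩
  have h1w : 0 < 1 - w := by linarith
  set t : ℝ := 1 / ((1 - w) * N) with ht
  have ht0 : 0 < t := by rw [ht]; positivity
  let E := {τ // τ ∈ T} ⊕ J
  let B : E → (X → Fin N) → Prop := fun e ω => match e with
    | Sum.inl τ => ∀ z ∈ τ.1, ω z.1 = z.2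
    | Sum.inr j => F j ω
  let dep : E → Finset X := fun e => match e with
    | Sum.inl τ => τ.1.image Prod.fst
    | Sum.inr j => H j
  let x : E → ℝ := fun e => match e with
    | Sum.inl τ => t ^ τ.1.card
    | Sum.inr j => ε j
  have hx0 : ∀ e, 0 ≤ x e := by
    rintro (τ | j)
    · exact pow_nonneg ht0.le _
    · exact (hε j).1
  have hsum' : ∀ v : X, ∑ e ∈ univ.filter (fun e : E => v ∈ dep e), x e ≤ w := by
    intro v
    refine le_of_eq_of_le ?_ (hsum v)
    rw [Finset.sum_filter, Fintype.sum_sum_type]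
    congr 1
    · rw [Finset.sum_filter, ← Finset.sum_coe_sort T]
      refine Finset.sum_congr rfl fun τ _ => ?_
      have : v ∈ dep (Sum.inl τ) ↔ ∃ z ∈ τ.1, z.1 = v := by
        show v ∈ τ.1.image Prod.fst ↔ _
        rw [mem_image]
      by_cases h : ∃ z ∈ τ.1, z.1 = v
      · rw [if_pos (this.2 h), if_pos h]
      · rw [if_neg (fun h' => h (this.1 h')), if_neg h]
    · rw [Finset.sum_filter]
  have hx1 : ∀ e, x e < 1 := by
    rintro (τ | j)
    · obtain ⟨z, hz⟩ := hT τ.1 τ.2
      have h1 := hsum' z.1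
      have h2 : x (Sum.inl τ) ≤ ∑ e ∈ univ.filter (fun e : E => z.1 ∈ dep e), x e := by
        exact Finset.single_le_sum (f := x) (s := univ.filter (fun e : E => z.1 ∈ dep e))
          (a := Sum.inl τ) (fun e _ => hx0 e)
          (mem_filter.2 ⟨mem_univ _, mem_image.2 ⟨z, hz, rfl⟩⟩)
      linarith
    · exact (hε j).2
  have hdep : ∀ e, Pool.Agent.Helper635.LLL.DependsOn (B e) (dep e) := by
    rintro (τ | j)
    · intro ω ω' h h1 z hz
      rw [← h z.1 (mem_image.2 ⟨z, hz, rfl⟩)]
      exact h1 z hz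
    · exact hF j
  have hcnt : ∀ e, (cnt (B e) : ℝ) ≤ x e * (1 - w) ^ (dep e).card * (N : ℝ) ^ Fintype.card X := by
    rintro (τ | j)
    · have h1 : cnt (B (Sum.inl τ)) * N ^ τ.1.card ≤ N ^ Fintype.card X := by
        have h := card_part (X := X) (C := Fin N) τ.1
        rw [Fintype.card_fin] at h
        exact h
      have h2 : (cnt (B (Sum.inl τ)) : ℝ) * (N : ℝ) ^ τ.1.card ≤ (N : ℝ) ^ Fintype.card X := by
        exact_mod_cast h1
      have h3 : (1 - w) ^ τ.1.card ≤ (1 - w) ^ (dep (Sum.inl τ)).card := by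
        apply pow_le_pow_of_le_one h1w.le (by linarith)
        exact Finset.card_image_le
      have h4 : t ^ τ.1.card * (1 - w) ^ τ.1.card * (N : ℝ) ^ τ.1.card = 1 := by
        rw [← mul_pow, ← mul_pow]
        have : t * (1 - w) * N = 1 := by
          rw [ht]; field_simp
        rw [this, one_pow]
      have hNp : (0 : ℝ) < (N : ℝ) ^ τ.1.card := by positivity
      have h5 : (cnt (B (Sum.inl τ)) : ℝ) ≤
          (t ^ τ.1.card * (1 - w) ^ τ.1.card) * (N : ℝ) ^ Fintype.card X := by
        have h6 : (cnt (B (Sum.inl τ)) : ℝ) = (t ^ τ.1.card * (1 - w) ^ τ.1.card) *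
            ((cnt (B (Sum.inl τ)) : ℝ) * (N : ℝ) ^ τ.1.card) := by
          calc (cnt (B (Sum.inl τ)) : ℝ) = (cnt (B (Sum.inl τ)) : ℝ) * 1 := by ring
            _ = (cnt (B (Sum.inl τ)) : ℝ) *
                (t ^ τ.1.card * (1 - w) ^ τ.1.card * (N : ℝ) ^ τ.1.card) := by rw [h4]
            _ = _ := by ring
        rw [h6]
        exact mul_le_mul_of_nonneg_left h2 (by positivity)
      refine h5.trans ?_
      refine mul_le_mul_of_nonneg_right ?_ (by positivity)
      exact mul_le_mul_of_nonneg_left h3 (by positivity)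
    · have h1 := hFc j
      have : cnt (B (Sum.inr j)) = (univ.filter (fun ω : X → Fin N => F j ω)).card := by
        unfold cnt ev
        congr!
      rw [this]
      exact h1
  obtain ⟨ω, hω⟩ := core N hN w hw1 B dep x hx0 hx1 hdep hcnt hsum'
  exact ⟨ω, fun τ hτ h => hω (Sum.inl ⟨τ, hτ⟩) h, fun j h => hω (Sum.inr j) h⟩

end Pool.Agent.K1H69.HYC
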