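import Pool.Agent.K1H69.HYC.Glll

/-! Project HYC (helper34): the clusters are coloured by random injections. -/

set_option autoImplicit false
open Classical Finset

namespace Pool.Agent.K1H69.HYC

open Pool.Agent.K1H34.HYC

theorem sum_union_le {α : Type} [DecidableEq α] (f : α → ℝ) (hf : ∀ a, 0 ≤ f a) (A B : Finset α) :
    ∑ a ∈ A ∪ B, f a ≤ ∑ a ∈ A, f a + ∑ a ∈ B, f a := by
  rw [← Finset.sum_union_inter]
  have : 0 ≤ ∑ a ∈ A ∩ B, f a := Finset.sum_nonneg fun a _ => hf a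
  linarith

theorem sum_biUnion_le' {α β : Type} [DecidableEq α] (f : α → ℝ) (hf : ∀ a, 0 ≤ f a) (s : Finset β)
    (A : β → Finset α) : ∑ a ∈ s.biUnion A, f a ≤ ∑ b ∈ s, ∑ a ∈ A b, f a := by
  induction s using Finset.induction_on with
  | empty => simp
  | insert b s hb ih =>
    rw [Finset.biUnion_insert, Finset.sum_insert hb]
    exact (sum_union_le f hf _ _).trans (by linarith)

theorem prod_cover' {E X : Type} (f : E → ℝ) (hf : ∀ e, 0 ≤ f e ∧ f e ≤ 1) (U : X → Finset E)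
    (s : Finset X) (A : Finset E) (h : ∀ e ∈ A, ∃ x ∈ s, e ∈ U x) :
    ∏ x ∈ s, ∏ e ∈ U x, f e ≤ ∏ e ∈ A, f e :=
  prod_cover f hf U s A fun e he => by
    obtain ⟨x, hx, hx'⟩ := h e he
    exact mem_biUnion.2 ⟨x, hx, hx'⟩

theorem sum_subset_le {α : Type} (f : α → ℝ) (hf : ∀ a, 0 ≤ f a) {A B : Finset α} (h : A ⊆ B) :
    ∑ a ∈ A, f a ≤ ∑ a ∈ B, f a :=
  Finset.sum_le_sum_of_subset_of_nonneg h fun a _ _ => hf a

section

variable {X O I : Type} [Fintype X] [Fintype O] (Γ : SimpleGraph X) (cl : X → I)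
    (Pal : I → Finset ℕ) (F : Finset (X × ℕ)) (P : O → Finset (X × ℕ)) (r : O → ℕ)

/-- forbidden pairs -/
noncomputable def T1 : Finset (Finset (X × ℕ)) :=
  (F.filter (fun z => z.2 ∈ Pal (cl z.1))).image (fun z => {z})

/-- the pairs of adjacent vertices with a label -/
noncomputable def prs : Finset ((X × X) × ℕ) :=
  (univ : Finset (X × X)).biUnion (fun e => ((Pal (cl e.1)).filter (fun l => Γ.Adj e.1 e.2 ∧
    cl e.1 ≠ cl e.2 ∧ l ∈ Pal (cl e.2))).image (fun l => (e, l)))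

theorem mem_prs (a : (X × X) × ℕ) : a ∈ prs Γ cl Pal ↔ Γ.Adj a.1.1 a.1.2 ∧ cl a.1.1 ≠ cl a.1.2 ∧
    a.2 ∈ Pal (cl a.1.1) ∧ a.2 ∈ Pal (cl a.1.2) := by
  unfold prs
  simp only [mem_biUnion, mem_univ, true_and, mem_image, mem_filter]
  constructor
  · rintro ⟨e, l, ⟨h1, h2, h3, h4⟩, rfl⟩
    exact ⟨h2, h3, h1, h4⟩
  · rintro ⟨h1, h2, h3, h4⟩
    exact ⟨a.1, a.2, ⟨h3, h1, h2, h4⟩, rfl⟩

/-- adjacent vertices with the same label -/
noncomputable def T2 : Finset (Finset (X × ℕ)) :=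
  (prs Γ cl Pal).image (fun a => {(a.1.1, a.2), (a.1.2, a.2)})

/-- the pairs of `P o` with a label in the palette -/
noncomputable def P' (o : O) : Finset (X × ℕ) := (P o).filter (fun z => z.2 ∈ Pal (cl z.1))

/-- too many hits -/
noncomputable def T3 (o : O) : Finset (Finset (X × ℕ)) := (P' cl Pal P o).powersetCard (r o + 1)

/-- all the bad events -/
noncomputable def TT : Finset (Finset (X × ℕ)) :=
  (T1 cl Pal F ∪ T2 Γ cl Pal) ∪ univ.biUnion (T3 cl Pal P r)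

theorem mem_T1 (τ : Finset (X × ℕ)) : τ ∈ T1 cl Pal F ↔
    ∃ z ∈ F, z.2 ∈ Pal (cl z.1) ∧ τ = {z} := by
  unfold T1
  rw [mem_image]
  constructor
  · rintro ⟨z, hz, rfl⟩
    exact ⟨z, (mem_filter.1 hz).1, (mem_filter.1 hz).2, rfl⟩
  · rintro ⟨z, h1, h2, rfl⟩
    exact ⟨z, mem_filter.2 ⟨h1, h2⟩, rfl⟩

theorem mem_T2 (τ : Finset (X × ℕ)) : τ ∈ T2 Γ cl Pal ↔ ∃ x y l, Γ.Adj x y ∧ cl x ≠ cl y ∧
    l ∈ Pal (cl x) ∧ l ∈ Pal (cl y) ∧ τ = {(x, l), (y, l)} := by
  unfold T2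
  rw [mem_image]
  constructor
  · rintro ⟨a, ha, rfl⟩
    obtain ⟨h1, h2, h3, h4⟩ := (mem_prs Γ cl Pal a).1 ha
    exact ⟨a.1.1, a.1.2, a.2, h1, h2, h3, h4, rfl⟩
  · rintro ⟨x, y, l, h1, h2, h3, h4, rfl⟩
    exact ⟨((x, y), l), (mem_prs Γ cl Pal _).2 ⟨h1, h2, h3, h4⟩, rfl⟩

theorem card_T2 {τ : Finset (X × ℕ)} (h : τ ∈ T2 Γ cl Pal) : τ.card = 2 := by
  obtain ⟨x, y, l, h1, _, _, _, rfl⟩ := (mem_T2 Γ cl Pal τ).1 h
  exact Finset.card_pair fun h => h1.ne (congrArg Prod.fst h)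

theorem mem_TT (τ : Finset (X × ℕ)) : τ ∈ TT Γ cl Pal F P r ↔
    τ ∈ T1 cl Pal F ∨ τ ∈ T2 Γ cl Pal ∨ ∃ o, τ ∈ T3 cl Pal P r o := by
  unfold TT
  rw [mem_union, mem_union, mem_biUnion]
  simp only [mem_univ, true_and]
  tauto

theorem card_TT {R : ℕ} (hR : 2 ≤ R) (hr : ∀ o, 1 ≤ r o ∧ r o + 1 ≤ R) {τ : Finset (X × ℕ)}
    (h : τ ∈ TT Γ cl Pal F P r) : 1 ≤ τ.card ∧ τ.card ≤ R := by
  rcases (mem_TT Γ cl Pal F P r τ).1 h with h | h | ⟨o, h⟩
  · obtain ⟨z, _, _, rfl⟩ := (mem_T1 cl Pal F τ).1 h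
    rw [card_singleton]; omega
  · rw [card_T2 Γ cl Pal h]; omega
  · rw [(mem_powersetCard.1 h).2]
    exact ⟨by omega, (hr o).2⟩

theorem lab_TT {τ : Finset (X × ℕ)} (h : τ ∈ TT Γ cl Pal F P r) :
    ∀ z ∈ τ, z.2 ∈ Pal (cl z.1) := by
  rcases (mem_TT Γ cl Pal F P r τ).1 h with h | h | ⟨o, h⟩
  · obtain ⟨z, _, h2, rfl⟩ := (mem_T1 cl Pal F τ).1 h
    intro z' hz'
    rw [mem_singleton] at hz'
    rwa [hz']
  · obtain ⟨x, y, l, h1, _, h3, h4, rfl⟩ := (mem_T2 Γ cl Pal τ).1 h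
    intro z hz
    rw [mem_insert, mem_singleton] at hz
    rcases hz with rfl | rfl
    · exact h3
    · exact h4
  · intro z hz
    exact (mem_filter.1 ((mem_powersetCard.1 h).1 hz)).2

/-- the weight of the events which contain a pair with the property `q` -/
theorem weight (hTUP : S_TUP) {s R : ℕ} (hs : 64 ≤ s)
    (hr : ∀ o, 1 ≤ r o ∧ r o + 1 ≤ R) (hP : ∀ o, 12 * (P o).card ≤ s * r o)
    (q : X × ℕ → Prop)
    (h1 : 32 * (F.filter q).card ≤ s)
    (h2 : 64 * ((T2 Γ cl Pal).filter (fun τ => ∃ z ∈ τ, q z)).card ≤ s ^ 2)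
    (h3 : ∑ o, (((P o).filter q).card : ℝ) * (1 / 2) ^ (r o) ≤ s / 16) :
    ∑ τ ∈ (TT Γ cl Pal F P r).filter (fun τ => ∃ z ∈ τ, q z), (2 / (s : ℝ)) ^ τ.card ≤ 1 / 4 := by
  have hs0 : (0 : ℝ) < s := by
    have : 0 < s := by omega
    exact_mod_cast this
  set t : ℝ := 2 / (s : ℝ) with ht
  have ht0 : 0 < t := by positivity
  have hts : t * s = 2 := by rw [ht]; field_simp
  have hnn : ∀ τ : Finset (X × ℕ), 0 ≤ t ^ τ.card := fun τ => by positivity
  unfold TT
  rw [Finset.filter_union, Finset.filter_union]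
  refine (sum_union_le _ hnn _ _).trans ?_
  have e12 := sum_union_le (fun τ : Finset (X × ℕ) => t ^ τ.card) hnn
    ((T1 cl Pal F).filter (fun τ => ∃ z ∈ τ, q z)) ((T2 Γ cl Pal).filter (fun τ => ∃ z ∈ τ, q z))
  -- first
  have e1 : ∑ τ ∈ (T1 cl Pal F).filter (fun τ => ∃ z ∈ τ, q z), t ^ τ.card ≤ 1 / 16 := by
    have a1 : ∑ τ ∈ (T1 cl Pal F).filter (fun τ => ∃ z ∈ τ, q z), t ^ τ.card ≤
        ∑ τ ∈ (F.filter q).image (fun z => ({z} : Finset (X × ℕ))), t ^ τ.card := by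
      apply sum_subset_le _ hnn
      intro τ hτ
      obtain ⟨ha, z, hz, hq⟩ := mem_filter.1 hτ
      obtain ⟨z', hF', _, rfl⟩ := (mem_T1 cl Pal F τ).1 ha
      rw [mem_singleton] at hz
      subst hz
      exact mem_image.2 ⟨z, mem_filter.2 ⟨hF', hq⟩, rfl⟩
    have a2 : ∑ τ ∈ (F.filter q).image (fun z => ({z} : Finset (X × ℕ))), t ^ τ.card ≤
        ((F.filter q).card : ℝ) * t := by
      rw [Finset.sum_image (fun a _ b _ h => Finset.singleton_injective h)]
      simp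
    have a3 : ((F.filter q).card : ℝ) * t ≤ 1 / 16 := by
      have : (32 : ℝ) * (F.filter q).card ≤ s := by exact_mod_cast h1
      nlinarith
    linarith
  have e2 : ∑ τ ∈ (T2 Γ cl Pal).filter (fun τ => ∃ z ∈ τ, q z), t ^ τ.card ≤ 1 / 16 := by
    have a1 : ∑ τ ∈ (T2 Γ cl Pal).filter (fun τ => ∃ z ∈ τ, q z), t ^ τ.card =
        (((T2 Γ cl Pal).filter (fun τ => ∃ z ∈ τ, q z)).card : ℝ) * t ^ 2 := by
      rw [← nsmul_eq_mul, ← Finset.sum_const]
      refine Finset.sum_congr rfl fun τ hτ => ?_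
      rw [card_T2 Γ cl Pal (mem_filter.1 hτ).1]
    rw [a1]
    have a2 : (64 : ℝ) * ((T2 Γ cl Pal).filter (fun τ => ∃ z ∈ τ, q z)).card ≤ (s : ℝ) ^ 2 := by
      exact_mod_cast h2
    have a3 : t ^ 2 * (s : ℝ) ^ 2 = 4 := by rw [← mul_pow, hts]; norm_num
    nlinarith [sq_nonneg t, mul_le_mul_of_nonneg_right a2 (sq_nonneg t)]
  -- third
  have e3 : ∑ τ ∈ (univ.biUnion (T3 cl Pal P r)).filter (fun τ => ∃ z ∈ τ, q z), t ^ τ.card ≤
      1 / 8 := by
    have a1 : (univ.biUnion (T3 cl Pal P r)).filter (fun τ => ∃ z ∈ τ, q z) ⊆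
        univ.biUnion (fun o => (T3 cl Pal P r o).filter
          (fun τ => ∃ z ∈ τ, z ∈ (P' cl Pal P o).filter q)) := by
      intro τ hτ
      obtain ⟨ha, z, hz, hq⟩ := mem_filter.1 hτ
      obtain ⟨o, _, ho⟩ := mem_biUnion.1 ha
      exact mem_biUnion.2 ⟨o, mem_univ _, mem_filter.2 ⟨ho, z, hz,
        mem_filter.2 ⟨(mem_powersetCard.1 ho).1 hz, hq⟩⟩⟩
    have a2 : ∀ o, ∑ τ ∈ (T3 cl Pal P r o).filter
        (fun τ => ∃ z ∈ τ, z ∈ (P' cl Pal P o).filter q), t ^ τ.card ≤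
        (((P o).filter q).card : ℝ) * t * (1 / 2) ^ (r o) := by
      intro o
      have b1 := hTUP (X × ℕ) (P' cl Pal P o) ((P' cl Pal P o).filter q) (r o) t (hr o).1 ht0.le
        (filter_subset _ _) (by
          have c1 : ((P' cl Pal P o).card : ℝ) ≤ (P o).card :=
            Nat.cast_le.2 (card_le_card (filter_subset _ _))
          have c2 : (12 : ℝ) * (P o).card ≤ s * r o := by exact_mod_cast hP o
          have c3 : 6 * ((P' cl Pal P o).card : ℝ) * t ≤ 6 * ((P o).card : ℝ) * t := by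
            have := mul_le_mul_of_nonneg_right c1 ht0.le
            linarith
          have c4 : 6 * ((P o).card : ℝ) * t * s = 12 * (P o).card := by
            rw [mul_assoc, hts]; ring
          have c5 : 6 * ((P o).card : ℝ) * t ≤ r o := by
            by_contra hcon
            push Not at hcon
            have := mul_lt_mul_of_pos_right hcon hs0
            rw [c4] at this
            linarith
          linarith)
      have b2 : ∑ τ ∈ (T3 cl Pal P r o).filter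
          (fun τ => ∃ z ∈ τ, z ∈ (P' cl Pal P o).filter q), t ^ τ.card ≤
          (((P' cl Pal P o).filter q).card : ℝ) * t * (1 / 2) ^ (r o) := by
        unfold T3
        convert b1
      refine b2.trans ?_
      have c1 : (((P' cl Pal P o).filter q).card : ℝ) ≤ ((P o).filter q).card := by
        refine Nat.cast_le.2 (card_le_card ?_)
        exact filter_subset_filter _ (filter_subset _ _)
      have c2 : (0 : ℝ) ≤ t * (1 / 2) ^ (r o) := by positivity
      nlinarith [mul_le_mul_of_nonneg_right c1 c2]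
    calc _ ≤ ∑ τ ∈ univ.biUnion (fun o => (T3 cl Pal P r o).filter
          (fun τ => ∃ z ∈ τ, z ∈ (P' cl Pal P o).filter q)), t ^ τ.card :=
          sum_subset_le _ hnn a1
      _ ≤ ∑ o, ∑ τ ∈ (T3 cl Pal P r o).filter
          (fun τ => ∃ z ∈ τ, z ∈ (P' cl Pal P o).filter q), t ^ τ.card :=
          sum_biUnion_le' _ hnn _ _
      _ ≤ ∑ o, (((P o).filter q).card : ℝ) * t * (1 / 2) ^ (r o) :=
          Finset.sum_le_sum fun o _ => a2 o
      _ = t * ∑ o, (((P o).filter q).card : ℝ) * (1 / 2) ^ (r o) := by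
          rw [Finset.mul_sum]
          refine Finset.sum_congr rfl fun o _ => ?_
          ring
      _ ≤ t * (s / 16) := mul_le_mul_of_nonneg_left h3 ht0.le
      _ = 1 / 8 := by rw [← mul_div_assoc, hts]; norm_num
  linarith

theorem Inj_nonempty (h : ∀ i, (univ.filter (fun x => cl x = i)).card ≤ (Pal i).card) :
    (Inj cl Pal).Nonempty := by
  have h1 : ∀ i, Nonempty ({x // cl x = i} ↪ {l // l ∈ Pal i}) := by
    intro i
    apply Function.Embedding.nonempty_of_card_le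
    rw [Fintype.card_coe, Fintype.card_subtype]
    convert h i
  choose e he using fun i => (h1 i : Nonempty _).elim fun e => (⟨e, trivial⟩ : ∃ _e :
    {x // cl x = i} ↪ {l // l ∈ Pal i}, True)
  have h2 : ∀ x i (hx : cl x = i), ((e (cl x) ⟨x, rfl⟩).1 : ℕ) = (e i ⟨x, hx⟩).1 := by
    intro x i hx
    subst hx
    rfl
  refine ⟨fun x => (e (cl x) ⟨x, rfl⟩).1, ?_⟩
  unfold Inj
  rw [mem_filter, Fintype.mem_piFinset]
  refine ⟨fun x => (e (cl x) ⟨x, rfl⟩).2, ?_⟩
  intro x y hxy hf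
  have h3 : ((e (cl y) ⟨x, hxy⟩).1 : ℕ) = (e (cl y) ⟨y, rfl⟩).1 := by
    rw [← h2 x (cl y) hxy]; exact hf
  have h4 := (e (cl y)).injective (Subtype.ext h3)
  exact congrArg Subtype.val h4

end

theorem t_HINJ : S_TUP → S_NEG → S_LOP → S_HINJ := by
  intro hTUP hNEG hLOP X O I _ _ Γ cl Pal F s R P r hs hR hcl hPal hPal2 hr hF1 hF2 hA1 hA2 hP hP1
    hP2
  have hs0 : (0 : ℝ) < s := by
    have : 0 < s := by omega
    exact_mod_cast this
  set t : ℝ := 2 / (s : ℝ) with ht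
  have ht0 : 0 < t := by positivity
  have ht1 : t < 1 := by
    rw [ht, div_lt_one hs0]
    have : 2 < s := by omega
    exact_mod_cast this
  let T := TT Γ cl Pal F P r
  let E := {τ // τ ∈ T}
  let x : E → ℝ := fun e => t ^ e.1.card
  let B : E → (X → ℕ) → Prop := fun e f => ∀ z ∈ e.1, f z.1 = z.2
  let nb : X × ℕ → Finset (X × ℕ) → Prop := fun z τ' =>
    ∃ z' ∈ τ', z.1 = z'.1 ∨ (cl z.1 = cl z'.1 ∧ z.2 = z'.2)
  let nbr : E → E → Prop := fun e e' => ∃ z ∈ e.1, nb z e'.1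
  have hx : ∀ e, 0 ≤ x e ∧ x e < 1 := by
    intro e
    refine ⟨by positivity, ?_⟩
    exact pow_lt_one₀ ht0.le ht1 (by have := (card_TT Γ cl Pal F P r hR hr e.2).1; omega)
  -- the weights
  have w1 : ∀ v : X, ∑ τ ∈ T.filter (fun τ => ∃ z ∈ τ, z.1 = v), t ^ τ.card ≤ 1 / 4 := by
    intro v
    refine weight Γ cl Pal F P r hTUP hs hr hP (fun z => z.1 = v) (hF1 v) ?_ ?_
    · have hsub : (T2 Γ cl Pal).filter (fun τ => ∃ z ∈ τ, z.1 = v) ⊆
          ((univ.filter (fun y => Γ.Adj v y ∧ cl y ≠ cl v)) ×ˢ Pal (cl v)).image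
            (fun a => {(v, a.2), (a.1, a.2)}) := by
        intro τ hτ
        obtain ⟨h1, z, hz, hzv⟩ := mem_filter.1 hτ
        obtain ⟨a, b, l, h2, h3, h4, h5, rfl⟩ := (mem_T2 Γ cl Pal τ).1 h1
        rw [mem_insert, mem_singleton] at hz
        rcases hz with rfl | rfl
        · have hav : a = v := hzv
          subst hav
          exact mem_image.2 ⟨(b, l), mem_product.2 ⟨mem_filter.2 ⟨mem_univ _, h2, h3.symm⟩, h4⟩,
            rfl⟩
        · have hbv : b = v := hzv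
          subst hbv
          refine mem_image.2 ⟨(a, l), mem_product.2 ⟨mem_filter.2 ⟨mem_univ _, h2.symm, h3⟩, h5⟩,
            ?_⟩
          exact Finset.pair_comm _ _
      have h1 := (card_le_card hsub).trans card_image_le
      rw [card_product] at h1
      have h2 := hA1 v
      have h3 := hPal2 (cl v)
      calc 64 * ((T2 Γ cl Pal).filter (fun τ => ∃ z ∈ τ, z.1 = v)).card
          ≤ 64 * ((univ.filter (fun y => Γ.Adj v y ∧ cl y ≠ cl v)).card * (Pal (cl v)).card) :=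
            Nat.mul_le_mul_left _ h1
        _ ≤ 64 * ((univ.filter (fun y => Γ.Adj v y ∧ cl y ≠ cl v)).card * (2 * s)) :=
            Nat.mul_le_mul_left _ (Nat.mul_le_mul_left _ h3)
        _ = (128 * (univ.filter (fun y => Γ.Adj v y ∧ cl y ≠ cl v)).card) * s := by ring
        _ ≤ s * s := Nat.mul_le_mul_right _ h2
        _ = s ^ 2 := by ring
    · exact hP1 v
  have w2 : ∀ i, ∀ l ∈ Pal i, ∑ τ ∈ T.filter (fun τ => ∃ z ∈ τ, cl z.1 = i ∧ z.2 = l),
      t ^ τ.card ≤ 1 / 4 := by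
    intro i l hl
    have hsub : (T2 Γ cl Pal).filter (fun τ => ∃ z ∈ τ, cl z.1 = i ∧ z.2 = l) ⊆
        (univ.filter (fun z : X × X => cl z.1 = i ∧ Γ.Adj z.1 z.2 ∧ cl z.2 ≠ i)).image
          (fun a => {(a.1, l), (a.2, l)}) := by
      intro τ hτ
      obtain ⟨h1, z, hz, hz1, hz2⟩ := mem_filter.1 hτ
      obtain ⟨a, b, l', h2, h3, h4, h5, rfl⟩ := (mem_T2 Γ cl Pal τ).1 h1
      rw [mem_insert, mem_singleton] at hz
      rcases hz with rfl | rfl
      · have hl' : l' = l := hz2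
        have ha : cl a = i := hz1
        subst hl'
        refine mem_image.2 ⟨(a, b), mem_filter.2 ⟨mem_univ _, ha, h2, ?_⟩, rfl⟩
        rw [← ha]; exact h3.symm
      · have hl' : l' = l := hz2
        have hb : cl b = i := hz1
        subst hl'
        refine mem_image.2 ⟨(b, a), mem_filter.2 ⟨mem_univ _, hb, h2.symm, ?_⟩, ?_⟩
        · rw [← hb]; exact h3
        · exact Finset.pair_comm _ _
    have hfin : 64 * ((T2 Γ cl Pal).filter (fun τ => ∃ z ∈ τ, cl z.1 = i ∧ z.2 = l)).card ≤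
        s ^ 2 := (Nat.mul_le_mul_left 64 ((card_le_card hsub).trans card_image_le)).trans (hA2 i)
    have hwt := weight Γ cl Pal F P r hTUP hs hr hP (fun z => cl z.1 = i ∧ z.2 = l)
      (by convert hF2 i l hl) (by convert hfin) (by convert hP2 i l hl)
    convert hwt
  have w3 : ∀ z : X × ℕ, z.2 ∈ Pal (cl z.1) →
      ∑ e ∈ univ.filter (fun e : E => nb z e.1), x e ≤ 1 / 2 := by
    intro z hz
    have h1 : ∑ e ∈ univ.filter (fun e : E => nb z e.1), x e =
        ∑ τ ∈ T.filter (fun τ => nb z τ), t ^ τ.card := by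
      rw [Finset.sum_filter, Finset.sum_filter, ← Finset.sum_coe_sort T]
    rw [h1]
    have h2 : T.filter (fun τ => nb z τ) ⊆ T.filter (fun τ => ∃ z' ∈ τ, z'.1 = z.1) ∪
        T.filter (fun τ => ∃ z' ∈ τ, cl z'.1 = cl z.1 ∧ z'.2 = z.2) := by
      intro τ hτ
      obtain ⟨h3, z', hz', h4⟩ := mem_filter.1 hτ
      rw [mem_union]
      rcases h4 with h4 | ⟨h4, h5⟩
      · exact Or.inl (mem_filter.2 ⟨h3, z', hz', h4.symm⟩)
      · exact Or.inr (mem_filter.2 ⟨h3, z', hz', h4.symm, h5.symm⟩)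
    have hnn : ∀ τ : Finset (X × ℕ), 0 ≤ t ^ τ.card := fun τ => by positivity
    have h3 := (sum_subset_le (fun τ => t ^ τ.card) hnn h2).trans (sum_union_le _ hnn _ _)
    have h4 := w1 z.1
    have h5 := w2 (cl z.1) z.2 hz
    linarith
  obtain ⟨f, hfW, hf⟩ := hLOP (X → ℕ) E (Inj cl Pal) B nbr x (Inj_nonempty cl Pal hcl) hx (by
    intro e T' hT'
    have hcard := card_TT Γ cl Pal F P r hR hr e.2
    have hneg := hNEG X I cl Pal s e.1 (T'.image Subtype.val)
      (fun i => by have := hPal i; omega)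
      (by
        intro τ' hτ' z hz z' hz'
        obtain ⟨e', he', rfl⟩ := mem_image.1 hτ'
        have h1 := hT' e' he'
        constructor
        · intro h
          exact h1 ⟨z, hz, z', hz', Or.inl h⟩
        · intro h h'
          exact h1 ⟨z, hz, z', hz', Or.inr ⟨h, h'⟩⟩)
    have ea : ((Inj cl Pal).filter (fun f => (∀ z ∈ e.1, f z.1 = z.2) ∧
        ∀ τ' ∈ T'.image Subtype.val, ¬ ∀ z ∈ τ', f z.1 = z.2)).card =
        ((Inj cl Pal).filter (fun f => B e f ∧ ∀ e' ∈ T', ¬ B e' f)).card := by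
      congr 1
      ext f
      rw [mem_filter, mem_filter]
      refine and_congr_right fun _ => and_congr_right fun _ => ?_
      constructor
      · intro h e' he'
        exact h e'.1 (mem_image.2 ⟨e', he', rfl⟩)
      · intro h τ' hτ'
        obtain ⟨e', he', rfl⟩ := mem_image.1 hτ'
        exact h e' he'
    have eb : ((Inj cl Pal).filter (fun f =>
        ∀ τ' ∈ T'.image Subtype.val, ¬ ∀ z ∈ τ', f z.1 = z.2)).card =
        ((Inj cl Pal).filter (fun f => ∀ e' ∈ T', ¬ B e' f)).card := by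
      congr 1
      ext f
      rw [mem_filter, mem_filter]
      refine and_congr_right fun _ => ?_
      constructor
      · intro h e' he'
        exact h e'.1 (mem_image.2 ⟨e', he', rfl⟩)
      · intro h τ' hτ'
        obtain ⟨e', he', rfl⟩ := mem_image.1 hτ'
        exact h e' he'
    rw [ea, eb] at hneg
    have hprod : (1 / 2 : ℝ) ^ e.1.card ≤
        ∏ e' ∈ univ.filter (fun e' => nbr e e' ∧ e' ≠ e), (1 - x e') := by
      have h1 := prod_cover' (fun e' => 1 - x e')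
        (fun e' => ⟨by linarith [(hx e').2], by linarith [(hx e').1]⟩)
        (fun z => univ.filter (fun e' : E => nb z e'.1)) e.1
        (univ.filter (fun e' => nbr e e' ∧ e' ≠ e)) (by
          intro e' he'
          obtain ⟨z, hz, hz'⟩ := (mem_filter.1 he').2.1
          exact ⟨z, hz, mem_filter.2 ⟨mem_univ _, hz'⟩⟩)
      refine le_trans ?_ h1
      rw [← Finset.prod_const]
      refine Finset.prod_le_prod (fun _ _ => by norm_num) fun z hz => ?_
      have h2 := one_sub_sum_le x (fun e' => ⟨(hx e').1, (hx e').2.le⟩)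
        (univ.filter (fun e' : E => nb z e'.1))
      have h3 := w3 z (lab_TT Γ cl Pal F P r e.2 z hz)
      linarith
    set a : ℝ := (((Inj cl Pal).filter (fun f => B e f ∧ ∀ e' ∈ T', ¬ B e' f)).card : ℝ) with ha
    set b : ℝ := (((Inj cl Pal).filter (fun f => ∀ e' ∈ T', ¬ B e' f)).card : ℝ) with hb
    have hab : a * (s : ℝ) ^ e.1.card ≤ b := by rw [ha, hb]; exact_mod_cast hneg
    have hb0 : 0 ≤ b := Nat.cast_nonneg _
    have hxs : x e * (1 / 2 : ℝ) ^ e.1.card * (s : ℝ) ^ e.1.card = 1 := by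
      show t ^ e.1.card * (1 / 2 : ℝ) ^ e.1.card * (s : ℝ) ^ e.1.card = 1
      rw [← mul_pow, ← mul_pow]
      have : t * (1 / 2) * s = 1 := by rw [ht]; field_simp
      rw [this, one_pow]
    have main : a ≤ x e * (∏ e' ∈ univ.filter (fun e' => nbr e e' ∧ e' ≠ e), (1 - x e')) * b := by
      have h1 : a = (x e * (1 / 2 : ℝ) ^ e.1.card) * (a * (s : ℝ) ^ e.1.card) := by
        calc a = a * 1 := by ring
          _ = a * (x e * (1 / 2 : ℝ) ^ e.1.card * (s : ℝ) ^ e.1.card) := by rw [hxs]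
          _ = _ := by ring
      rw [h1]
      have h2 : 0 ≤ x e * (1 / 2 : ℝ) ^ e.1.card := mul_nonneg (hx e).1 (by positivity)
      calc (x e * (1 / 2 : ℝ) ^ e.1.card) * (a * (s : ℝ) ^ e.1.card)
          ≤ (x e * (1 / 2 : ℝ) ^ e.1.card) * b := mul_le_mul_of_nonneg_left hab h2
        _ ≤ _ := mul_le_mul_of_nonneg_right (mul_le_mul_of_nonneg_left hprod (hx e).1) hb0
    convert main)
  unfold Inj at hfW
  rw [mem_filter, Fintype.mem_piFinset] at hfW
  refine ⟨f, hfW.1, hfW.2, ?_, ?_, ?_⟩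
  · intro v hv
    have h1 : ({(v, f v)} : Finset (X × ℕ)) ∈ T := by
      refine (mem_TT Γ cl Pal F P r _).2 (Or.inl ((mem_T1 cl Pal F _).2 ⟨(v, f v), hv, hfW.1 v, rfl⟩))
    apply hf ⟨_, h1⟩
    intro z hz
    have hz' : z = (v, f v) := mem_singleton.1 hz
    rw [hz']
  · intro v y hvy hcly hfy
    have h1 : ({(v, f v), (y, f v)} : Finset (X × ℕ)) ∈ T := by
      refine (mem_TT Γ cl Pal F P r _).2 (Or.inr (Or.inl ((mem_T2 Γ cl Pal _).2
        ⟨v, y, f v, hvy, hcly, hfW.1 v, ?_, rfl⟩)))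
      rw [hfy]; exact hfW.1 y
    apply hf ⟨_, h1⟩
    intro z hz
    rcases mem_insert.1 (show z ∈ ({(v, f v), (y, f v)} : Finset (X × ℕ)) from hz) with h2 | h2
    · rw [h2]
    · rw [mem_singleton.1 h2]
      exact hfy.symm
  · intro o
    by_contra hcon
    push Not at hcon
    unfold hits at hcon
    obtain ⟨A, hA, hAc⟩ := Finset.exists_subset_card_eq (Nat.succ_le_of_lt hcon)
    have h1 : A.image (fun v => (v, f v)) ∈ T := by
      refine (mem_TT Γ cl Pal F P r _).2 (Or.inr (Or.inr ⟨o, mem_powersetCard.2 ⟨?_, ?_⟩⟩))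
      · intro z hz
        obtain ⟨v, hv, rfl⟩ := mem_image.1 hz
        exact mem_filter.2 ⟨(mem_filter.1 (hA hv)).2, hfW.1 v⟩
      · rw [Finset.card_image_of_injective _ (fun v w h => congrArg Prod.fst h), hAc]
    apply hf ⟨_, h1⟩
    intro z hz
    have hz' : z ∈ A.image (fun v => (v, f v)) := hz
    obtain ⟨v, hv, rfl⟩ := mem_image.1 hz'
    rfl

end Pool.Agent.K1H69.HYC
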