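import Pool.Agent.K1H34.HYC.Stm

/-! Project HYC (helper34): the lopsided local lemma in counting form. -/

set_option autoImplicit false
open Classical Finset

namespace Pool.Agent.K1H69.HYC

open Pool.Agent.K1H34.HYC

section

variable {Ω E : Type} [Fintype E] (W : Finset Ω) (B : E → Ω → Prop)

/-- number of outcomes without the events of `T` -/
noncomputable def No (T : Finset E) : ℝ := ((W.filter (fun ω => ∀ e' ∈ T, ¬ B e' ω)).card : ℝ)

/-- number of outcomes with the event `e` and without those of `T` -/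
noncomputable def Wi (e : E) (T : Finset E) : ℝ :=
  ((W.filter (fun ω => B e ω ∧ ∀ e' ∈ T, ¬ B e' ω)).card : ℝ)

theorem No_nonneg (T : Finset E) : 0 ≤ No W B T := Nat.cast_nonneg _

theorem Wi_anti (e : E) {T T' : Finset E} (h : T' ⊆ T) : Wi W B e T ≤ Wi W B e T' := by
  refine Nat.cast_le.2 (Finset.card_le_card ?_)
  intro ω hω
  rw [mem_filter] at hω ⊢
  exact ⟨hω.1, hω.2.1, fun e' he' => hω.2.2 e' (h he')⟩

theorem Wi_mem (e : E) {T : Finset E} (h : e ∈ T) : Wi W B e T = 0 := by
  unfold Wi
  rw [Finset.filter_eq_empty_iff.2]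
  · simp
  · rintro ω _ ⟨h1, h2⟩
    exact h2 e h h1

theorem No_insert (e : E) (T : Finset E) : No W B (insert e T) = No W B T - Wi W B e T := by
  unfold No Wi
  rw [eq_sub_iff_add_eq, ← Nat.cast_add]
  congr 1
  rw [← Finset.card_union_of_disjoint]
  · congr 1
    ext ω
    simp only [mem_union, mem_filter, mem_insert, forall_eq_or_imp]
    constructor
    · rintro (⟨h1, h2, h3⟩ | ⟨h1, h2, h3⟩)
      · exact ⟨h1, h3⟩
      · exact ⟨h1, h3⟩
    · rintro ⟨h1, h2⟩
      by_cases h : B e ω
      · exact Or.inr ⟨h1, h, h2⟩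
      · exact Or.inl ⟨h1, h, h2⟩
  · rw [Finset.disjoint_filter]
    intro ω _ h1 h2
    exact h1 e (mem_insert_self _ _) h2.1

theorem lop_key (nbr : E → E → Prop) (x : E → ℝ)
    (hx : ∀ e, 0 ≤ x e ∧ x e < 1)
    (hB : ∀ e, ∀ T : Finset E, (∀ e' ∈ T, ¬ nbr e e') →
      Wi W B e T ≤ x e * (∏ e' ∈ univ.filter (fun e' => nbr e e' ∧ e' ≠ e), (1 - x e')) *
        No W B T) :
    ∀ (n : ℕ) (T : Finset E), T.card = n → ∀ e, Wi W B e T ≤ x e * No W B T := by
  intro n
  induction n using Nat.strong_induction_on with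
  | _ n ih =>
    intro T hT e
    by_cases heT : e ∈ T
    · rw [Wi_mem W B e heT]
      exact mul_nonneg (hx e).1 (No_nonneg W B T)
    set T1 := T.filter (fun e' => nbr e e') with hT1
    set T2 := T.filter (fun e' => ¬ nbr e e') with hT2
    have h1 : Wi W B e T ≤ Wi W B e T2 := Wi_anti W B e (filter_subset _ _)
    have h2 := hB e T2 (fun e' he' => (mem_filter.1 he').2)
    -- adding the elements of `T1`
    have h3 : ∀ S ⊆ T1, (∏ e' ∈ S, (1 - x e')) * No W B T2 ≤ No W B (S ∪ T2) := by
      intro S
      induction S using Finset.induction_on with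
      | empty => intro _; simp
      | insert a S ha ihS =>
        intro hS
        have hS' : S ⊆ T1 := (subset_insert _ _).trans hS
        have h4 := ihS hS'
        have haT1 : a ∈ T1 := hS (mem_insert_self _ _)
        have haT : a ∈ T := (mem_filter.1 haT1).1
        have haT2 : a ∉ T2 := fun h => (mem_filter.1 h).2 (mem_filter.1 haT1).2
        have hsub : S ∪ T2 ⊂ T := by
          refine (Finset.ssubset_iff_of_subset ?_).2 ⟨a, haT, ?_⟩
          · intro b hb
            rcases mem_union.1 hb with hb | hb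
            · exact (mem_filter.1 (hS' hb)).1
            · exact (mem_filter.1 hb).1
          · rw [mem_union]; rintro (h | h)
            · exact ha h
            · exact haT2 h
        have h5 := ih _ (by rw [← hT]; exact Finset.card_lt_card hsub) (S ∪ T2) rfl a
        rw [Finset.prod_insert ha, insert_union, No_insert]
        have h6 : 0 ≤ 1 - x a := by linarith [(hx a).2]
        have h7 := mul_le_mul_of_nonneg_left h4 h6
        have h8 : (1 - x a) * No W B (S ∪ T2) ≤ No W B (S ∪ T2) - Wi W B a (S ∪ T2) := by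
          linarith
        calc (1 - x a) * (∏ e' ∈ S, (1 - x e')) * No W B T2
            = (1 - x a) * ((∏ e' ∈ S, (1 - x e')) * No W B T2) := by ring
          _ ≤ _ := h7.trans h8
    have h4 := h3 T1 (Subset.refl _)
    have h5 : T1 ∪ T2 = T := by
      rw [hT1, hT2]; exact Finset.filter_union_filter_not_eq _ _
    rw [h5] at h4
    have h6 : ∏ e' ∈ univ.filter (fun e' => nbr e e' ∧ e' ≠ e), (1 - x e') ≤
        ∏ e' ∈ T1, (1 - x e') := by
      refine Finset.prod_le_prod_of_subset_of_le_one ?_ ?_ ?_
      · intro e' he'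
        obtain ⟨h7, h8⟩ := mem_filter.1 he'
        exact mem_filter.2 ⟨mem_univ _, h8, fun h => heT (h ▸ h7)⟩
      · intro e' _
        linarith [(hx e').2]
      · intro e' _ _
        linarith [(hx e').1]
    have h7 : x e * (∏ e' ∈ univ.filter (fun e' => nbr e e' ∧ e' ≠ e), (1 - x e')) * No W B T2 ≤
        x e * No W B T := by
      rw [mul_assoc]
      refine mul_le_mul_of_nonneg_left ?_ (hx e).1
      exact (mul_le_mul_of_nonneg_right h6 (No_nonneg W B T2)).trans h4
    exact h1.trans (h2.trans h7)

end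

theorem t_LOP : S_LOP := by
  intro Ω E _ W B nbr x hW hx hB
  have key := lop_key W B nbr x hx hB
  have h : ∀ S : Finset E, (∏ e ∈ S, (1 - x e)) * W.card ≤ No W B S := by
    intro S
    induction S using Finset.induction_on with
    | empty => simp [No]
    | insert a S ha ihS =>
      rw [Finset.prod_insert ha, No_insert]
      have h5 := key _ S rfl a
      have h6 : 0 ≤ 1 - x a := by linarith [(hx a).2]
      have h7 := mul_le_mul_of_nonneg_left ihS h6
      calc (1 - x a) * (∏ e' ∈ S, (1 - x e')) * W.card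
          = (1 - x a) * ((∏ e' ∈ S, (1 - x e')) * W.card) := by ring
        _ ≤ (1 - x a) * No W B S := h7
        _ ≤ _ := by linarith
  have h1 := h univ
  have h2 : 0 < (∏ e : E, (1 - x e)) * (W.card : ℝ) := by
    apply mul_pos
    · exact Finset.prod_pos fun e _ => by linarith [(hx e).2]
    · exact_mod_cast hW.card_pos
  have h3 : 0 < No W B univ := h2.trans_le h1
  have h4 : 0 < (W.filter (fun ω => ∀ e' ∈ (univ : Finset E), ¬ B e' ω)).card := by
    unfold No at h3
    exact_mod_cast h3
  obtain ⟨ω, hω⟩ := Finset.card_pos.1 h4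
  rw [mem_filter] at hω
  exact ⟨ω, hω.1, fun e => hω.2 e (mem_univ _)⟩

end Pool.Agent.K1H69.HYC
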